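import Pool.Agent.R502.AQ.Set

/-!
Arithmetic progressions: long runs of members of a residue class with a small prime factor, for
moduli without small prime factors.
-/

set_option autoImplicit false

open Finset Filter Topology

namespace Pool.Agent.R502.AQ

open Pool.Agent.H361R2.PP
open Pool.Agent.R526.AA
open Pool.Agent.R502.LG

/-- the map from the classes to the integers -/
def nu (qi P a : ℕ) : ℕ := a * qi + (P - 1)

theorem nu_dvd {q qi P a j p : ℕ} (hP : 1 ≤ P) (hqi : q * qi ≡ 1 [MOD P]) (hp : p ∣ P)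
    (hpq : Nat.Coprime p q) (hj : 1 ≤ j) :
    p ∣ nu qi P a + j ↔ p ∣ a + (j - 1) * q := by
  obtain ⟨i, rfl⟩ : ∃ i, j = i + 1 := ⟨j - 1, by omega⟩
  have h1 : nu qi P a + (i + 1) = P + (a * qi + i) := by
    unfold nu
    omega
  have h2 : q * (a * qi + i) ≡ a + i * q [MOD p] := by
    have h3 : q * qi ≡ 1 [MOD p] := hqi.of_dvd hp
    calc q * (a * qi + i) = a * (q * qi) + i * q := by ring
      _ ≡ a * 1 + i * q [MOD p] := (h3.mul_left a).add_right _
      _ = a + i * q := by ring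
  rw [h1, Nat.dvd_add_right hp, Nat.add_sub_cancel]
  constructor
  · intro h
    exact (h2.dvd_iff (dvd_refl p)).1 (h.mul_left q)
  · intro h
    have h4 := (h2.dvd_iff (dvd_refl p)).2 h
    exact hpq.dvd_of_dvd_mul_left h4

theorem exists_inv {q X : ℕ} (hX : 2 ≤ X) (hq : ∀ p : ℕ, p.Prime → p ∣ q → X < p) :
    ∃ qi : ℕ, 0 < qi ∧ q * qi ≡ 1 [MOD X.factorial] := by
  have hc : Nat.Coprime q X.factorial := by
    apply Nat.Coprime.symm
    rw [Nat.coprime_iff_gcd_eq_one]
    by_contra h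
    obtain ⟨p, hp, hpd⟩ := Nat.exists_prime_and_dvd h
    have h1 := (hp.dvd_factorial).1 (hpd.trans (Nat.gcd_dvd_left _ _))
    have h2 := hq p hp (hpd.trans (Nat.gcd_dvd_right _ _))
    omega
  have h2 : 1 < X.factorial := by
    calc 1 < Nat.factorial 2 := by decide
      _ ≤ X.factorial := Nat.factorial_le hX
  obtain ⟨m, hm⟩ := Nat.exists_mul_mod_eq_one_of_coprime hc h2
  refine ⟨m, ?_, ?_⟩
  · rcases Nat.eq_zero_or_pos m with h | h
    · rw [h] at hm
      simp at hm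
    · exact h
  · unfold Nat.ModEq
    rw [hm.2, Nat.mod_eq_of_lt h2]

theorem nu_inj {qi P : ℕ} (hqi : 0 < qi) (s : ℕ) : Function.Injective (fun a => nu qi P a + s) := by
  intro a b hab
  unfold nu at hab
  simp only at hab
  have : a * qi = b * qi := by omega
  exact Nat.eq_of_mul_eq_mul_right hqi this

open Classical in
theorem nu_Lv {q qi X : ℕ} (hqi0 : 0 < qi) (hqi : q * qi ≡ 1 [MOD X.factorial]) (A y s : ℕ) :
    Lv ((Ico A (A + y)).image (fun a => nu qi X.factorial a + s)) X 1 := by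
  have h0 : Lv ((Ico A (A + y)).image (fun a => a * qi)) X 1 := by
    intro m hm hmX r
    have hinj : Function.Injective (fun a => a * qi) := fun a b hab =>
      Nat.eq_of_mul_eq_mul_right hqi0 hab
    rw [card_image_of_injective _ hinj, filter_image, card_image_of_injective _ hinj,
      Nat.card_Ico, Nat.add_sub_cancel_left]
    have hmX' : m ≤ X := by exact_mod_cast hmX
    have hmd : m ∣ X.factorial := Nat.dvd_factorial hm hmX'
    have h3 : q * qi ≡ 1 [MOD m] := hqi.of_dvd hmd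
    have hfil : (Ico A (A + y)).filter (fun a => a * qi ≡ r [MOD m]) =
        (Ico A (A + y)).filter (fun a => a ≡ r * q [MOD m]) := by
      apply filter_congr
      intro a _
      constructor
      · intro h
        calc a = a * 1 := (mul_one a).symm
          _ ≡ a * (q * qi) [MOD m] := (h3.mul_left a).symm
          _ = a * qi * q := by ring
          _ ≡ r * q [MOD m] := h.mul_right q
      · intro h
        calc a * qi ≡ r * q * qi [MOD m] := h.mul_right qi
          _ = r * (q * qi) := by ring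
          _ ≡ r * 1 [MOD m] := h3.mul_left r
          _ = r := mul_one r
    rw [hfil]
    exact cnt_class2 A y m (r * q) hm
  have h1 := Lv_shift h0 (X.factorial - 1 + s)
  have h2 : ((Ico A (A + y)).image (fun a => a * qi)).image (fun n => n + (X.factorial - 1 + s)) =
      (Ico A (A + y)).image (fun a => nu qi X.factorial a + s) := by
    rw [image_image]
    apply image_congr
    intro a _
    unfold nu
    simp only [Function.comp]
    omega
  rwa [h2] at h1

open Classical in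
theorem nu_Sz {q qi X : ℕ} (hX : 2 ≤ X) (hq : ∀ p : ℕ, p.Prime → p ∣ q → X < p)
    (hqi : q * qi ≡ 1 [MOD X.factorial]) (A y s : ℕ)
    (hA : 1 ≤ A) (Dx : ℝ) (hDx : (((A + y) + (s + X) * q : ℕ) : ℝ) ≤ (X : ℝ) ^ Dx) :
    Sz ((Ico A (A + y)).image (fun a => nu qi X.factorial a + s)) X Dx := by
  intro n hn j hj hjX
  rw [mem_image] at hn
  obtain ⟨a, ha, rfl⟩ := hn
  rw [mem_Ico] at ha
  have hP : 1 ≤ X.factorial := Nat.one_le_iff_ne_zero.2 (Nat.factorial_ne_zero X)
  refine le_trans ?_ hDx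
  rw [← Nat.cast_prod, Nat.cast_le]
  have hN : 0 < a + (s + j - 1) * q := by omega
  have h1 : ∏ p ∈ (PX X).filter (fun p => p ∣ nu qi X.factorial a + s + j), p ∣
      a + (s + j - 1) * q := by
    apply Finset.prod_primes_dvd
    · intro p hp
      have h2 := (Finset.mem_filter.1 hp).1
      rw [PX, Finset.mem_filter] at h2
      exact h2.2.1.prime
    · intro p hp
      rw [Finset.mem_filter] at hp
      have h2 := hp.1
      rw [PX, Finset.mem_filter, Finset.mem_range] at h2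
      have hpp := h2.2.1
      have hpX : p ≤ X := by omega
      have h3 : Nat.Coprime p q := by
        rw [Nat.Prime.coprime_iff_not_dvd hpp]
        intro h4
        have := hq p hpp h4
        omega
      have h5 := hp.2
      rw [add_assoc] at h5
      exact (nu_dvd hP hqi (Nat.dvd_factorial hpp.pos hpX) h3 (by omega)).1 h5
  refine (Nat.le_of_dvd hN h1).trans ?_
  have h6 : (s + j - 1) * q ≤ (s + X) * q := Nat.mul_le_mul_right _ (by omega)
  omega

/-- all the members `a + j q`, `i l ≤ j < (i + 1) l`, have a prime factor at most `z` -/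
def Gd (z : ℝ) (q l a i : ℕ) : Prop :=
  ∀ j ∈ Ico (i * l) ((i + 1) * l), ∃ p : ℕ, p.Prime ∧ (p : ℝ) ≤ z ∧ p ∣ a + j * q

theorem Gd_of_Fre {z : ℝ} {q qi X l a i : ℕ} (hz : (X : ℝ) ≤ z)
    (hq : ∀ p : ℕ, p.Prime → p ∣ q → X < p)
    (hqi : q * qi ≡ 1 [MOD X.factorial]) (h : Fre X l (nu qi X.factorial a) i) : Gd z q l a i := by
  intro j hj
  rw [mem_Ico] at hj
  have hP : 1 ≤ X.factorial := Nat.one_le_iff_ne_zero.2 (Nat.factorial_ne_zero X)
  obtain ⟨p, hp, hpX, hpd⟩ := h (nu qi X.factorial a + (j + 1)) (by omega) (by omega)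
  have h3 : Nat.Coprime p q := by
    rw [Nat.Prime.coprime_iff_not_dvd hp]
    intro h4
    have := hq p hp h4
    omega
  have h4 := (nu_dvd hP hqi (Nat.dvd_factorial hp.pos hpX) h3 (by omega)).1 hpd
  refine ⟨p, hp, ?_, h4⟩
  have : (p : ℝ) ≤ X := by exact_mod_cast hpX
  linarith

/-- the scale -/
theorem scale_q (δ lam : ℝ) (hδ : 0 < δ) (hδ1 : δ ≤ 1) (hlam : 0 < lam) (X₀ K : ℕ) :
    ∃ q₀ : ℕ, ∀ q : ℕ, q₀ ≤ q → ∃ X : ℕ, X₀ ≤ X ∧ 2 ≤ X ∧ (X : ℝ) ≤ (q : ℝ) ^ δ ∧
      ((⌈lam * Real.log q⌉₊ : ℕ) : ℝ) ≤ (4 * lam / δ) * Real.log X ∧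
      ((2 * q + (K * ⌈lam * Real.log q⌉₊ + X) * q : ℕ) : ℝ) ≤ (X : ℝ) ^ (6 / δ) := by
  have t1 : Tendsto (fun x : ℝ => x ^ (δ / 2)) atTop atTop :=
    tendsto_rpow_atTop (by positivity)
  have t3 : ∀ᶠ x : ℝ in atTop, (K * (2 * lam) + 2) * Real.log x ≤ x := by
    have h := (isLittleO_log_rpow_atTop (show (0 : ℝ) < 1 by norm_num)).def
      (show (0 : ℝ) < 1 / (K * (2 * lam) + 2) by positivity)
    filter_upwards [h, eventually_ge_atTop (1 : ℝ)] with x hx hx1
    rw [Real.norm_eq_abs, abs_of_nonneg (Real.log_nonneg hx1), Real.norm_eq_abs,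
      abs_of_nonneg (Real.rpow_nonneg (by linarith) _), Real.rpow_one] at hx
    calc (K * (2 * lam) + 2) * Real.log x ≤ (K * (2 * lam) + 2) *
          (1 / (K * (2 * lam) + 2) * x) := by gcongr
      _ = x := by field_simp
  obtain ⟨M₀, hM₀⟩ := eventually_atTop.1 ((t1.eventually_ge_atTop (max 2 (X₀ + 1))).and
    ((Real.tendsto_log_atTop.eventually_ge_atTop (1 / lam + 1)).and (t3.and
      (eventually_ge_atTop (16 : ℝ)))))
  refine ⟨⌈M₀⌉₊, fun q hq => ?_⟩
  have hqM : M₀ ≤ q := (Nat.le_ceil _).trans (by exact_mod_cast hq)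
  obtain ⟨e1, e2, e3, e4⟩ := hM₀ q hqM
  have hM0 : (0 : ℝ) < q := by linarith
  have hM1 : (1 : ℝ) ≤ q := by linarith
  set z := (q : ℝ) ^ (δ / 2) with hz
  have hz2 : 2 ≤ z := (le_max_left _ _).trans e1
  have hzX : (X₀ : ℝ) + 1 ≤ z := (le_max_right _ _).trans e1
  have hzz : (q : ℝ) ^ δ = z * z := by
    rw [hz, ← Real.rpow_add hM0]
    congr 1
    ring
  have hXl : z ≤ (⌊(q : ℝ) ^ δ⌋₊ : ℝ) := by
    have h5 := Nat.lt_floor_add_one ((q : ℝ) ^ δ)
    rw [hzz] at h5 ⊢
    nlinarith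
  have hXu : (⌊(q : ℝ) ^ δ⌋₊ : ℝ) ≤ (q : ℝ) ^ δ := Nat.floor_le (by positivity)
  set X := ⌊(q : ℝ) ^ δ⌋₊ with hX
  have hL : 0 < Real.log q := Real.log_pos (by linarith)
  have hlogX : δ / 2 * Real.log q ≤ Real.log X := by
    rw [← Real.log_rpow hM0]
    exact Real.log_le_log (by positivity) hXl
  have hl1 : 1 ≤ lam * Real.log q := by
    have h6 : 1 / lam ≤ Real.log q := by linarith
    rw [div_le_iff₀ hlam] at h6
    linarith
  have hceil : ((⌈lam * Real.log q⌉₊ : ℕ) : ℝ) ≤ 2 * (lam * Real.log q) := by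
    have := Nat.ceil_lt_add_one (show 0 ≤ lam * Real.log q by positivity)
    linarith
  have hXq : (X : ℝ) ≤ q := by
    refine hXu.trans ?_
    calc (q : ℝ) ^ δ ≤ (q : ℝ) ^ (1 : ℝ) := Real.rpow_le_rpow_of_exponent_le hM1 hδ1
      _ = q := Real.rpow_one _
  refine ⟨X, ?_, ?_, hXu, ?_, ?_⟩
  · have : (X₀ : ℝ) ≤ X := by linarith
    exact_mod_cast this
  · have : (2 : ℝ) ≤ X := by linarith
    exact_mod_cast this
  · refine hceil.trans ?_
    calc 2 * (lam * Real.log q) = (4 * lam / δ) * (δ / 2 * Real.log q) := by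
          field_simp
          norm_num
      _ ≤ _ := mul_le_mul_of_nonneg_left hlogX (by positivity)
  · have hlog1 : 1 ≤ Real.log q := by
      have : 0 < 1 / lam := by positivity
      linarith
    have h7 : (K : ℝ) * ⌈lam * Real.log q⌉₊ ≤ K * (2 * (lam * Real.log q)) :=
      mul_le_mul_of_nonneg_left hceil (Nat.cast_nonneg _)
    have h8 : (K : ℝ) * ⌈lam * Real.log q⌉₊ ≤ q := by nlinarith
    have h9 : (q : ℝ) ^ (3 : ℕ) ≤ (X : ℝ) ^ (6 / δ) := by
      calc (q : ℝ) ^ (3 : ℕ) = z ^ (6 / δ) := by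
            rw [hz, ← Real.rpow_mul hM0.le, ← Real.rpow_natCast]
            congr 1
            field_simp
            norm_num
        _ ≤ _ := Real.rpow_le_rpow (by positivity) hXl (by positivity)
    refine le_trans ?_ h9
    push_cast
    have h10 : ((K : ℝ) * ⌈lam * Real.log q⌉₊ + X) * q ≤ (q + q) * q := by
      apply mul_le_mul_of_nonneg_right _ hM0.le
      linarith
    have h11 : (q : ℝ) ^ 3 = q * q * q := by ring
    have h12 : 16 * (q : ℝ) ≤ q * q := mul_le_mul_of_nonneg_right e4 hM0.le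
    have h13 : 16 * ((q : ℝ) * q) ≤ q * q * q := by
      have h14 : 0 ≤ (q : ℝ) * q := by positivity
      nlinarith
    rw [h11]
    nlinarith

open Classical in
/-- positive proportion -/
theorem ap_pos (δ lam : ℝ) (hδ : 0 < δ) (hδ1 : δ ≤ 1) (hlam : 0 < lam) :
    ∃ c : ℝ, 0 < c ∧ ∃ q₀ : ℕ, ∀ q : ℕ, q₀ ≤ q → (∀ p : ℕ, p.Prime → p ∣ q → (q : ℝ) ^ δ < p) →
      ∀ A y : ℕ, 1 ≤ A → A + y ≤ 2 * q → (q : ℝ) ^ δ ≤ y →
      c * y ≤ (((Ico A (A + y)).filter (fun a => ∀ j < ⌈lam * Real.log q⌉₊,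
        ∃ p : ℕ, p.Prime ∧ (p : ℝ) ≤ (q : ℝ) ^ δ ∧ p ∣ a + j * q)).card : ℝ) := by
  obtain ⟨C, hC, hk⟩ := basicS3 (4 * lam / δ) 1 (6 / δ) (by positivity) one_pos le_rfl
    (by positivity)
  obtain ⟨X₀, hb⟩ := hk 1 one_pos
  obtain ⟨q₀, hq₀⟩ := scale_q δ lam hδ hδ1 hlam X₀ 0
  refine ⟨(1 - 1 / 4) ^ 2 / (1 + 1 / 8 + C / (1 : ℕ)), by positivity, q₀, ?_⟩
  intro q hq hqp A y hA hAy hy
  obtain ⟨X, hX0, hX2, hXq, hl, hDx⟩ := hq₀ q hq
  set l := ⌈lam * Real.log q⌉₊ with hld
  have hqX : ∀ p : ℕ, p.Prime → p ∣ q → X < p := by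
    intro p hp hpq
    have h1 := hqp p hp hpq
    exact_mod_cast lt_of_le_of_lt hXq h1
  obtain ⟨qi, hqi0, hqi⟩ := exists_inv hX2 hqX
  have hcard : ((Ico A (A + y)).image (fun a => nu qi X.factorial a + 0)).card = y := by
    rw [card_image_of_injective _ (nu_inj hqi0 0), Nat.card_Ico, Nat.add_sub_cancel_left]
  have hXpos : (0 : ℝ) < X := by exact_mod_cast (by omega : 0 < X)
  have h1 := hb X hX0 ((Ico A (A + y)).image (fun a => nu qi X.factorial a + 0)) l
    (nu_Sz hX2 hqX hqi A y 0 hA _ (by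
      refine le_trans ?_ hDx
      rw [Nat.cast_le]
      have h2 : (0 + X) * q ≤ (0 * l + X) * q := by simp
      omega)) (by
      rw [hcard]
      intro m hm hmX r
      have h2 := nu_Lv hqi0 hqi A y 0 m hm hmX r
      refine h2.trans ?_
      rw [le_div_iff₀ hXpos]
      linarith) hl
  rw [hcard] at h1
  refine h1.trans ?_
  rw [filter_image, card_image_of_injective _ (nu_inj hqi0 0)]
  apply Nat.cast_le.2
  apply card_le_card
  intro a ha
  rw [mem_filter] at ha ⊢
  refine ⟨ha.1, ?_⟩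
  obtain ⟨i, hi, hF⟩ := ha.2
  have hi0 : i = 0 := by omega
  rw [hi0, Nat.add_zero] at hF
  have h2 := Gd_of_Fre hXq hqX hqi hF
  intro j hj
  exact h2 j (by rw [mem_Ico]; constructor <;> omega)

open Classical in
/-- almost all classes -/
theorem ap_almost (δ lam ε : ℝ) (hδ : 0 < δ) (hδ1 : δ ≤ 1) (hlam : 0 < lam) (hε : 0 < ε) :
    ∃ c : ℝ, 0 < c ∧ ∃ K₀ : ℕ, ∀ K : ℕ, K₀ ≤ K → ∃ q₀ : ℕ, ∀ q : ℕ, q₀ ≤ q →
      (∀ p : ℕ, p.Prime → p ∣ q → (q : ℝ) ^ δ < p) →
      ∀ A y : ℕ, 1 ≤ A → A + y ≤ 2 * q → (q : ℝ) ^ δ ≤ y →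
      (((Ico A (A + y)).filter (fun a => (((range K).filter
        (fun i => Gd ((q : ℝ) ^ δ) q ⌈lam * Real.log q⌉₊ a i)).card : ℝ) < c * K)).card : ℝ) ≤
        ε * y := by
  obtain ⟨ε₁, hε₁⟩ : ∃ e : ℝ, e = min ε 1 / 2 := ⟨_, rfl⟩
  have hε₁0 : 0 < ε₁ := by rw [hε₁]; positivity
  have hε₁1 : ε₁ ≤ 1 := by rw [hε₁]; have := min_le_right ε 1; linarith
  obtain ⟨C, hC, hkk⟩ := basicS3 (4 * lam / δ) ε₁ (6 / δ) (by positivity) hε₁0 hε₁1 (by positivity)
  obtain ⟨k, hk⟩ := exists_nat_ge (8 * C / ε₁)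
  have hk1 : 0 < k + 1 := Nat.succ_pos k
  obtain ⟨X₀, hb⟩ := hkk (k + 1) hk1
  have hgood : 1 - ε₁ ≤ (1 - ε₁ / 4) ^ 2 / (1 + ε₁ / 8 + C / ((k + 1 : ℕ) : ℝ)) := by
    apply eps_ineq hε₁0 hε₁1 (by positivity) le_rfl (by positivity)
    rw [div_le_iff₀ (by positivity)]
    rw [div_le_iff₀ hε₁0] at hk
    push_cast
    nlinarith
  have hk0 : (0 : ℝ) < ((k + 1 : ℕ) : ℝ) := by exact_mod_cast hk1
  generalize k + 1 = k' at *
  refine ⟨1 / (4 * k'), by positivity, 2 * k', fun K hK => ?_⟩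
  obtain ⟨q₀, hq₀⟩ := scale_q δ lam hδ hδ1 hlam X₀ K
  refine ⟨q₀, ?_⟩
  intro q hq hqp A y hA hAy hy
  obtain ⟨X, hX0, hX2, hXq, hl, hDx⟩ := hq₀ q hq
  set l := ⌈lam * Real.log q⌉₊ with hld
  have hqX : ∀ p : ℕ, p.Prime → p ∣ q → X < p := by
    intro p hp hpq
    have h1 := hqp p hp hpq
    exact_mod_cast lt_of_le_of_lt hXq h1
  obtain ⟨qi, hqi0, hqi⟩ := exists_inv hX2 hqX
  have hcard : ∀ s, ((Ico A (A + y)).image (fun a => nu qi X.factorial a + s)).card = y := by
    intro s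
    rw [card_image_of_injective _ (nu_inj hqi0 s), Nat.card_Ico, Nat.add_sub_cancel_left]
  have hXpos : (0 : ℝ) < X := by exact_mod_cast (by omega : 0 < X)
  set m := K / k' with hm
  have hmk : m * k' ≤ K := Nat.div_mul_le_self _ _
  have hm2 : 2 ≤ m := by
    rw [hm, Nat.le_div_iff_mul_le hk1]
    exact hK
  have hmK : (K : ℝ) ≤ 2 * m * k' := by
    have h1 : K < (m + 1) * k' := by
      rw [hm, mul_comm]
      exact Nat.lt_mul_div_succ K hk1
    have h2 : K ≤ 2 * m * k' := by nlinarith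
    exact_mod_cast h2
  have hav := averagingS X l k' m K hk1 (by omega) hmk
    ((Ico A (A + y)).image (fun a => nu qi X.factorial a + 0)) (1 / (4 * k'))
    (ε₁ * y) (by
      rw [div_mul_eq_mul_div, one_mul, div_le_iff₀ (by positivity)]
      linarith) (by
    intro j hj
    have hjk : j * k' * l ≤ K * l := by
      have h1 : j * k' ≤ K := (Nat.mul_le_mul_right k' hj.le).trans hmk
      exact Nat.mul_le_mul_right l h1
    have h1 := hb X hX0 ((Ico A (A + y)).image (fun a => nu qi X.factorial a + j * k' * l)) l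
      (nu_Sz hX2 hqX hqi A y (j * k' * l) hA _ (by
        refine le_trans ?_ hDx
        rw [Nat.cast_le]
        have h2 : (j * k' * l + X) * q ≤ (K * l + X) * q := Nat.mul_le_mul_right _ (by omega)
        omega)) (by
        rw [hcard]
        intro m hm hmX r
        have h2 := nu_Lv hqi0 hqi A y (j * k' * l) m hm hmX r
        refine h2.trans ?_
        rw [le_div_iff₀ hXpos]
        linarith) hl
    rw [hcard] at h1
    have htot := card_filter_add_card_filter_not
      (s := (Ico A (A + y)).image (fun a => nu qi X.factorial a + j * k' * l))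
      (fun n => ∃ i < k', Fre X l n i)
    rw [hcard] at htot
    have htot' : ((((Ico A (A + y)).image (fun a => nu qi X.factorial a + j * k' * l)).filter
        (fun n => ∃ i < k', Fre X l n i)).card : ℝ) +
        ((((Ico A (A + y)).image (fun a => nu qi X.factorial a + j * k' * l)).filter
        (fun n => ¬ ∃ i < k', Fre X l n i)).card : ℝ) = y := by
      exact_mod_cast htot
    have h3 : (1 - ε₁) * (y : ℝ) ≤
        ((((Ico A (A + y)).image (fun a => nu qi X.factorial a + j * k' * l)).filter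
        (fun n => ∃ i < k', Fre X l n i)).card : ℝ) :=
      (mul_le_mul_of_nonneg_right hgood (Nat.cast_nonneg _)).trans h1
    have h4 : ((((Ico A (A + y)).image (fun a => nu qi X.factorial a + 0)).filter
        (fun n => ¬ ∃ i < k', Fre X l (n + j * k' * l) i)).card : ℝ) =
        ((((Ico A (A + y)).image (fun a => nu qi X.factorial a + j * k' * l)).filter
        (fun n => ¬ ∃ i < k', Fre X l n i)).card : ℝ) := by
      rw [filter_image, filter_image, card_image_of_injective _ (nu_inj hqi0 0),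
        card_image_of_injective _ (nu_inj hqi0 _)]
      simp only [Nat.add_zero]
    rw [h4]
    linarith)
  rw [filter_image, card_image_of_injective _ (nu_inj hqi0 0)] at hav
  have h7 : (((Ico A (A + y)).filter (fun a => (((range K).filter
        (fun i => Gd ((q : ℝ) ^ δ) q l a i)).card : ℝ) < 1 / (4 * k') * K)).card : ℝ) ≤
      (((Ico A (A + y)).filter (fun a => (((range K).filter
        (fun i => Fre X l (nu qi X.factorial a + 0) i)).card : ℝ) < 1 / (4 * k') * K)).card : ℝ) := by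
    apply Nat.cast_le.2
    apply card_le_card
    intro a ha
    rw [mem_filter] at ha
    rw [mem_filter]
    refine ⟨ha.1, lt_of_le_of_lt ?_ ha.2⟩
    apply Nat.cast_le.2
    apply card_le_card
    intro i hi
    rw [mem_filter] at hi ⊢
    refine ⟨hi.1, ?_⟩
    have hi2 := hi.2
    rw [Nat.add_zero] at hi2
    exact Gd_of_Fre hXq hqX hqi hi2
  refine (h7.trans hav).trans ?_
  rw [hε₁]
  have h8 : min ε 1 ≤ ε := min_le_left _ _
  have h9 : (0 : ℝ) ≤ y := Nat.cast_nonneg _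
  nlinarith

end Pool.Agent.R502.AQ
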