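import Pool.Agent.R502.AQ.AP

/-!
The least primes of the classes.
-/

set_option autoImplicit false

open Finset Filter Topology

namespace Pool.Agent.R502.AQ

/-- few classes are not reduced -/
theorem non_coprime (δ : ℝ) (hδ : 0 < δ) (q : ℕ) (hq : 2 ≤ q)
    (hqp : ∀ p : ℕ, p.Prime → p ∣ q → (q : ℝ) ^ δ < p) :
    (((Ico 1 q).filter (fun a => ¬ a.Coprime q)).card : ℝ) ≤ (1 / δ) * (q / (q : ℝ) ^ δ) := by
  have hq0 : (1 : ℝ) < q := by exact_mod_cast (by omega : 1 < q)
  have hqpos : (0 : ℝ) < q := by linarith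
  have hz0 : 0 < (q : ℝ) ^ δ := by positivity
  have h1 : (Ico 1 q).filter (fun a => ¬ a.Coprime q) ⊆
      q.primeFactors.biUnion (fun p => (Ioc 0 q).filter (fun a => p ∣ a)) := by
    intro a ha
    rw [mem_filter, mem_Ico] at ha
    obtain ⟨p, hp, hpd⟩ := Nat.exists_prime_and_dvd (show Nat.gcd a q ≠ 1 from ha.2)
    rw [mem_biUnion]
    refine ⟨p, ?_, ?_⟩
    · rw [Nat.mem_primeFactors]
      exact ⟨hp, hpd.trans (Nat.gcd_dvd_right _ _), by omega⟩
    · rw [mem_filter, mem_Ioc]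
      exact ⟨⟨by omega, by omega⟩, hpd.trans (Nat.gcd_dvd_left _ _)⟩
  have h2 : (q.primeFactors.card : ℝ) ≤ 1 / δ := by
    have h3 : ((q : ℝ) ^ δ) ^ q.primeFactors.card ≤ q := by
      calc ((q : ℝ) ^ δ) ^ q.primeFactors.card = ∏ p ∈ q.primeFactors, (q : ℝ) ^ δ := by
            rw [prod_const]
        _ ≤ ∏ p ∈ q.primeFactors, (p : ℝ) := by
            apply Finset.prod_le_prod
            · intro p _
              positivity
            · intro p hp
              exact (hqp p (Nat.prime_of_mem_primeFactors hp) (Nat.dvd_of_mem_primeFactors hp)).le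
        _ = ((∏ p ∈ q.primeFactors, p : ℕ) : ℝ) := by push_cast; rfl
        _ ≤ q := by
            exact_mod_cast Nat.le_of_dvd (by omega) (Nat.prod_primeFactors_dvd q)
    rw [← Real.rpow_natCast, ← Real.rpow_mul hqpos.le] at h3
    have h4 : (q : ℝ) ^ (δ * q.primeFactors.card) ≤ (q : ℝ) ^ (1 : ℝ) := by rwa [Real.rpow_one]
    rw [Real.rpow_le_rpow_left_iff hq0] at h4
    rw [le_div_iff₀ hδ]
    linarith
  calc (((Ico 1 q).filter (fun a => ¬ a.Coprime q)).card : ℝ) ≤
      ((q.primeFactors.biUnion (fun p => (Ioc 0 q).filter (fun a => p ∣ a))).card : ℝ) := by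
        exact_mod_cast card_le_card h1
    _ ≤ ∑ p ∈ q.primeFactors, (((Ioc 0 q).filter (fun a => p ∣ a)).card : ℝ) := by
        exact_mod_cast card_biUnion_le
    _ ≤ ∑ p ∈ q.primeFactors, ((q : ℝ) / (q : ℝ) ^ δ) := by
        apply sum_le_sum
        intro p hp
        rw [Nat.Ioc_filter_dvd_card_eq_div]
        have h5 : (q : ℝ) ^ δ < p :=
          hqp p (Nat.prime_of_mem_primeFactors hp) (Nat.dvd_of_mem_primeFactors hp)
        refine (Nat.cast_div_le).trans ?_
        apply div_le_div_of_nonneg_left hqpos.le hz0 h5.le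
    _ = (q.primeFactors.card : ℝ) * ((q : ℝ) / (q : ℝ) ^ δ) := by
        rw [sum_const, nsmul_eq_mul]
    _ ≤ _ := mul_le_mul_of_nonneg_right h2 (by positivity)

open Classical in
/-- the least primes of a positive proportion of the classes are large -/
theorem least_primes (δ lam : ℝ) (hδ : 0 < δ) (hδ1 : δ < 1) (hlam : 0 < lam) :
    ∃ c : ℝ, 0 < c ∧ ∃ q₀ : ℕ, ∀ q : ℕ, q₀ ≤ q → (∀ p : ℕ, p.Prime → p ∣ q → (q : ℝ) ^ δ < p) →
      c * q.totient ≤ (((range q).filter (fun a => a.Coprime q ∧ ∀ p : ℕ, p.Prime →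
        p ≡ a [MOD q] → lam * q * Real.log q < p)).card : ℝ) := by
  obtain ⟨c, hc, q₁, h1⟩ := ap_pos δ (lam + 1) hδ hδ1.le (by linarith)
  have t1 : Tendsto (fun x : ℝ => x ^ δ) atTop atTop := tendsto_rpow_atTop hδ
  have t2 : Tendsto (fun x : ℝ => x ^ (1 - δ)) atTop atTop := tendsto_rpow_atTop (by linarith)
  obtain ⟨M₀, hM₀⟩ := eventually_atTop.1 ((t1.eventually_ge_atTop (4 / (c * δ))).and
    ((t2.eventually_ge_atTop 4).and (eventually_ge_atTop (16 : ℝ))))
  refine ⟨c / 4, by positivity, q₁ + ⌈M₀⌉₊, fun q hq hqp => ?_⟩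
  have hqM : M₀ ≤ q := (Nat.le_ceil _).trans (by exact_mod_cast (by omega : ⌈M₀⌉₊ ≤ q))
  obtain ⟨e1, e2, e3⟩ := hM₀ q hqM
  have hq0 : (0 : ℝ) < q := by linarith
  have hz0 : 0 < (q : ℝ) ^ δ := by positivity
  have hz4 : 4 * (q : ℝ) ^ δ ≤ q := by
    calc 4 * (q : ℝ) ^ δ ≤ (q : ℝ) ^ (1 - δ) * (q : ℝ) ^ δ :=
          mul_le_mul_of_nonneg_right e2 hz0.le
      _ = q := by
          rw [← Real.rpow_add hq0]
          simp
  obtain ⟨A, hA⟩ : ∃ A : ℕ, A = ⌊(q : ℝ) ^ δ⌋₊ + 1 := ⟨_, rfl⟩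
  have hA1 : (A : ℝ) ≤ (q : ℝ) ^ δ + 1 := by
    rw [hA]
    push_cast
    have := Nat.floor_le hz0.le
    linarith
  have hA2 : (q : ℝ) ^ δ < A := by
    rw [hA]
    push_cast
    exact Nat.lt_floor_add_one _
  have hAq : A ≤ q := by
    have : (A : ℝ) ≤ q := by linarith
    exact_mod_cast this
  obtain ⟨y, hy⟩ : ∃ y : ℕ, A + y = q := ⟨q - A, by omega⟩
  have hy2 : (q : ℝ) / 2 ≤ y := by
    have h2 : (A : ℝ) + y = q := by exact_mod_cast hy
    linarith
  have h2 := h1 q (by omega) hqp A y (by omega) (by omega) (by linarith)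
  rw [hy] at h2
  have h3 := non_coprime δ hδ q (by
    have : (2 : ℝ) ≤ q := by linarith
    exact_mod_cast this) hqp
  have h4 : (1 / δ) * (q / (q : ℝ) ^ δ) ≤ c / 4 * q := by
    rw [div_le_iff₀ (by positivity)] at e1
    calc (1 / δ) * (q / (q : ℝ) ^ δ) = q * (1 / (δ * (q : ℝ) ^ δ)) := by field_simp
      _ ≤ q * (c / 4) := by
          apply mul_le_mul_of_nonneg_left _ hq0.le
          rw [div_le_iff₀ (by positivity)]
          nlinarith
      _ = _ := by ring
  set G := (Ico A q).filter (fun a => ∀ j < ⌈(lam + 1) * Real.log q⌉₊,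
    ∃ p : ℕ, p.Prime ∧ (p : ℝ) ≤ (q : ℝ) ^ δ ∧ p ∣ a + j * q) with hG
  have h5 : G ⊆ (range q).filter (fun a => a.Coprime q ∧ ∀ p : ℕ, p.Prime →
        p ≡ a [MOD q] → lam * q * Real.log q < p) ∪ (Ico 1 q).filter (fun a => ¬ a.Coprime q) := by
    intro a ha
    rw [hG, mem_filter, mem_Ico] at ha
    rw [mem_union]
    by_cases hcop : a.Coprime q
    · left
      rw [mem_filter, mem_range]
      refine ⟨ha.1.2, hcop, ?_⟩
      intro p hp hpa
      by_contra hcon
      push Not at hcon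
      have hpm : p % q = a := by
        have h6 : p % q = a % q := hpa
        rw [h6, Nat.mod_eq_of_lt ha.1.2]
      have hpj : a + (p / q) * q = p := by
        have := Nat.mod_add_div p q
        rw [hpm] at this
        rw [mul_comm]
        exact this
      have hlog : 0 < Real.log q := Real.log_pos (by linarith)
      have h7 : ((p / q : ℕ) : ℝ) < (lam + 1) * Real.log q := by
        have h8 : ((p / q : ℕ) : ℝ) * q ≤ p := by
          exact_mod_cast Nat.div_mul_le_self p q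
        have h9 : ((p / q : ℕ) : ℝ) * q ≤ (lam * Real.log q) * q := by linarith
        have h10 := le_of_mul_le_mul_right h9 hq0
        linarith
      have h8 : p / q < ⌈(lam + 1) * Real.log q⌉₊ := Nat.lt_ceil.2 h7
      obtain ⟨p', hp', hp'z, hp'd⟩ := ha.2 (p / q) h8
      rw [hpj] at hp'd
      have h9 : p' = p := (Nat.prime_dvd_prime_iff_eq hp' hp).1 hp'd
      rw [h9] at hp'z
      have h10 : (a : ℝ) ≤ p := by
        exact_mod_cast (by omega : a ≤ p)
      have h11 : (A : ℝ) ≤ a := by exact_mod_cast ha.1.1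
      linarith
    · right
      rw [mem_filter, mem_Ico]
      exact ⟨⟨by omega, ha.1.2⟩, hcop⟩
  have h6 : (G.card : ℝ) ≤ (((range q).filter (fun a => a.Coprime q ∧ ∀ p : ℕ, p.Prime →
        p ≡ a [MOD q] → lam * q * Real.log q < p)).card : ℝ) +
        (((Ico 1 q).filter (fun a => ¬ a.Coprime q)).card : ℝ) := by
    exact_mod_cast (card_le_card h5).trans (card_union_le _ _)
  have h7 : (q.totient : ℝ) ≤ q := by exact_mod_cast Nat.totient_le q
  have h8 : c * (q / 2) ≤ c * (y : ℝ) := mul_le_mul_of_nonneg_left hy2 hc.le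
  have h9 : c / 4 * (q.totient : ℝ) ≤ c / 4 * q := mul_le_mul_of_nonneg_left h7 (by positivity)
  linarith

end Pool.Agent.R502.AQ
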