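import Pool.Agent.R502.AQ.Alm
import Pool.Agent.R502.LG.Set

/-!
Blocks of integers with a small prime factor near the elements of a set of integers with a level of
distribution: version with a bound for the products of the prime factors only.
-/

set_option autoImplicit false

open Finset Filter Topology

namespace Pool.Agent.R502.AQ

open Pool.Agent.H361R2.PP
open Pool.Agent.R526.AA
open Pool.Agent.R502.LG
open Pool.Agent.H20R2.EQI

open Classical in
/-- for almost all `n ∈ S` one of the first `k` blocks of length `l` after `n` consists of integers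
with a prime factor at most `X` -/
theorem basicS3 (μ ε Dx : ℝ) (hμ : 0 < μ) (hε : 0 < ε) (hε1 : ε ≤ 1) (hDx : 0 ≤ Dx) :
    ∃ C : ℝ, 0 < C ∧ ∀ k : ℕ, 0 < k → ∃ X₀ : ℕ, ∀ X : ℕ, X₀ ≤ X → ∀ (S : Finset ℕ) (l : ℕ),
      Sz S X Dx → Lv S X ((S.card : ℝ) / X) →
      (l : ℝ) ≤ μ * Real.log X →
      (1 - ε / 4) ^ 2 / (1 + ε / 8 + C / k) * (S.card : ℝ) ≤
        ((S.filter (fun n => ∃ i < k, Fre X l n i)).card : ℝ) := by
  obtain ⟨Kq, Aq, C, hC, hA'⟩ := almost3 (2 * μ) ε Dx (by linarith) hε hε1 hDx
  refine ⟨C, hC, fun k hk => ?_⟩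
  have hA := hA' k hk
  have hΛ : 0 < (k : ℝ) * μ + μ := by positivity
  obtain ⟨X1, hX1⟩ := hA (k * μ + μ) hΛ
  obtain ⟨X2, hX2⟩ := err_sum Kq Aq
  obtain ⟨X3, hX3⟩ := Bk_card μ hμ (k * μ + μ) hΛ
  refine ⟨X1 + X2 + X3 + 16, fun X hX S l hx hS hl => ?_⟩
  obtain ⟨η, hη⟩ : ∃ η : ℝ, η = (1 - ε / 4) ^ 2 / (1 + ε / 8 + C / k) := ⟨_, rfl⟩
  rw [← hη]
  rw [← hη] at hX1
  have hW := Wm_pos X
  have hWr : (0 : ℝ) < Wm X := by exact_mod_cast hW
  have hX16 : (16 : ℝ) ≤ X := by exact_mod_cast (by omega : 16 ≤ X)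
  have hXr : (0 : ℝ) < X := by linarith
  have hL : 0 < Real.log X := Real.log_pos (by linarith)
  rcases S.eq_empty_or_nonempty with rfl | hSne
  · simp
  have hSpos : (0 : ℝ) < S.card := by exact_mod_cast hSne.card_pos
  have hHX : HH X ≤ X := by
    have h1 : ((HH X : ℕ) : ℝ) ≤ X := by
      have h2 : Real.log X ≤ X := (Real.log_le_sub_one_of_pos hXr).trans (by linarith)
      have h3 : Real.log (Real.log X) ≤ Real.log X :=
        (Real.log_le_sub_one_of_pos hL).trans (by linarith)
      have h4 : (0 : ℝ) ≤ Real.log (Real.log X) / 4 := by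
        apply div_nonneg _ (by norm_num)
        apply Real.log_nonneg
        rw [Real.le_log_iff_exp_le hXr]
        have := Real.exp_one_lt_d9
        linarith
      have h5 : ((HH X : ℕ) : ℝ) ≤ Real.log (Real.log X) / 4 := by
        unfold HH
        exact Nat.floor_le h4
      linarith
    exact_mod_cast h1
  -- one class
  have hcls : ∀ b < Wm X, η * ((S.card : ℝ) / Wm X) ≤
      (((S.filter (fun n => n % Wm X = b)).filter
        (fun n => ∃ i < k, Fre X l n i)).card : ℝ) := by
    intro b hb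
    have h1 := hX1 X (by omega) b none (S.filter (fun n => n % Wm X = b))
      ((S.card : ℝ) / Wm X)
      (fun D => if ∏ p ∈ D, (p : ℝ) ≤ (X : ℝ) ^ (1 / 2 - 1 / 32 : ℝ) then (S.card : ℝ) / X
        else S.card) (by
        intro n hn a ha1 haX
        rw [mem_filter] at hn
        exact hx n hn.1 a ha1 haX) (by positivity)
      (eqdS X b (by omega) hb S ((S.card : ℝ) / X) (by positivity) hS _ (by
        intro p hp
        rw [mem_filter, PX, mem_filter] at hp
        exact hp.1.2))
      (by
        have h2 := hX2 X (by omega)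
        calc _ = ∑ D ∈ (PX X).powerset.filter (fun D : Finset ℕ =>
              ∏ p ∈ D, (p : ℝ) ≤ (X : ℝ) ^ (1 / 2 - 1 / 32 : ℝ)),
                ((S.card : ℝ) / X) * ((Kq : ℝ) ^ D.card * (1 : ℝ)) := by
              apply sum_congr rfl
              intro D hD
              rw [mem_filter] at hD
              rw [if_pos hD.2]
              ring
          _ = ((S.card : ℝ) / X) * ∑ D ∈ (PX X).powerset.filter (fun D : Finset ℕ =>
              ∏ p ∈ D, (p : ℝ) ≤ (X : ℝ) ^ (1 / 2 - 1 / 32 : ℝ)),
                ((Kq : ℝ) ^ D.card * (1 : ℝ)) := by rw [mul_sum]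
          _ ≤ ((S.card : ℝ) / X) * ((X : ℝ) / Wm X / Real.log X ^ Aq) :=
              mul_le_mul_of_nonneg_left h2 (by positivity)
          _ = (S.card : ℝ) / Wm X / Real.log X ^ Aq := by
              field_simp)
      (fun i => Bk X b ⌊((k : ℝ) * μ + μ) * Real.log X⌋₊ 0 l i)
      (fun i => Bk_sub _ _ _ _ _ _)
      (by
        intro i
        apply hX3 X (by omega) b 0 l i hl
        have h2 : ((i : ℕ) : ℝ) ≤ k := by exact_mod_cast i.2.le
        have h3 : ((i : ℕ) : ℝ) * l ≤ k * (μ * Real.log X) := by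
          apply mul_le_mul h2 hl (by positivity) (by positivity)
        push_cast
        nlinarith)
      (fun i j hij => Bk_disj (fun h => hij (Fin.ext h)))
      (by intro a ha; simp at ha)
    refine h1.trans ?_
    apply Nat.cast_le.2
    apply card_le_card
    intro n hn
    rw [mem_filter] at hn ⊢
    refine ⟨hn.1, ?_⟩
    obtain ⟨i, hi⟩ := hn.2
    refine ⟨i, i.2, ?_⟩
    have hnb := (mem_filter.1 hn.1).2
    have := Fre_of (h := 0) (N := ⌊((k : ℝ) * μ + μ) * Real.log X⌋₊) (l := l) (i := i) hHX (by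
      rw [zero_add]
      apply Nat.le_floor
      push_cast
      have h2 : ((i : ℕ) : ℝ) + 1 ≤ k := by exact_mod_cast i.2
      have h3 : (((i : ℕ) : ℝ) + 1) * l ≤ k * (μ * Real.log X) := by
        apply mul_le_mul h2 hl (by positivity) (by positivity)
      nlinarith) hnb hi
    rwa [Nat.add_zero] at this
  -- sum over the classes
  have hfib : (S.filter (fun n => ∃ i < k, Fre X l n i)).card =
      ∑ b ∈ range (Wm X), ((S.filter (fun n => n % Wm X = b)).filter
        (fun n => ∃ i < k, Fre X l n i)).card := by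
    rw [card_eq_sum_card_fiberwise (f := fun n => n % Wm X) (t := range (Wm X))]
    · refine sum_congr rfl fun b _ => ?_
      congr 1
      ext n
      simp only [mem_filter]
      tauto
    · intro n _
      simp only [coe_range, Set.mem_Iio]
      exact Nat.mod_lt _ hW
  have hgood : η * S.card ≤
      ((S.filter (fun n => ∃ i < k, Fre X l n i)).card : ℝ) := by
    rw [hfib]
    push_cast
    calc η * S.card = ∑ b ∈ range (Wm X), η * ((S.card : ℝ) / Wm X) := by
          rw [sum_const, card_range, nsmul_eq_mul]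
          field_simp
      _ ≤ _ := sum_le_sum fun b hb => hcls b (mem_range.1 hb)
  exact hgood

end Pool.Agent.R502.AQ
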